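import Pool.Agent.R921.SP.Defs

/-! SP-C: convergence to discs. -/

set_option autoImplicit false

open MeasureTheory Metric Set Filter Topology
open scoped ENNReal

namespace Pool.Agent.R921.SP

namespace C

/-- unit vectors -/
noncomputable def e (θ : ℝ) : Pl := !₂[Real.cos θ, Real.sin θ]

theorem inner_pl (x y : Pl) : inner ℝ x y = x 0 * y 0 + x 1 * y 1 := by
  rw [PiLp.inner_apply, Fin.sum_univ_two]
  simp
  ring

theorem inner_e (x : Pl) (θ : ℝ) : inner ℝ x (e θ) = x 0 * Real.cos θ + x 1 * Real.sin θ := by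
  rw [inner_pl]; simp [e]

theorem norm_e (θ : ℝ) : ‖e θ‖ = 1 := by
  have h : ‖e θ‖ ^ 2 = 1 := by
    rw [← real_inner_self_eq_norm_sq, inner_e]
    simp only [e, PiLp.toLp_apply, Matrix.cons_val_zero, Matrix.cons_val_one]
    nlinarith [Real.sin_sq_add_cos_sq θ]
  have h0 := norm_nonneg (e θ)
  nlinarith

theorem exists_angle (v : Pl) : ∃ θ, v = ‖v‖ • e θ := by
  refine ⟨Complex.arg ⟨v 0, v 1⟩, ?_⟩
  have hn : ‖v‖ = ‖(⟨v 0, v 1⟩ : ℂ)‖ := by
    rw [Complex.norm_def, Complex.normSq_mk, EuclideanSpace.norm_eq, Fin.sum_univ_two]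
    congr 1
    simp [sq]
  ext i
  rw [hn]
  fin_cases i
  · simp only [e, Fin.zero_eta, Fin.isValue, PiLp.smul_apply, Matrix.cons_val_zero, smul_eq_mul]
    rw [Complex.norm_mul_cos_arg]
  · simp only [e, Fin.mk_one, Fin.isValue, PiLp.smul_apply, Matrix.cons_val_one, smul_eq_mul]
    simp only [Matrix.cons_val_zero]
    rw [Complex.norm_mul_sin_arg]

/-- endpoints of the section -/
theorem mem_steiner {K : Set Pl} (hK : IsCompact K) {w : Pl} (hw : ‖w‖ = 1) {p : Pl}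
    (hp : p ∈ steiner w K) : ∃ s t : ℝ, p + s • w ∈ K ∧ p + t • w ∈ K ∧
      2 * |inner ℝ p w| ≤ s - t := by
  obtain ⟨⟨t0, ht0⟩, hvol⟩ := hp
  have hcont : Continuous fun t : ℝ => p + t • w := by fun_prop
  have hcl : IsClosed {t : ℝ | p + t • w ∈ K} := hK.isClosed.preimage hcont
  obtain ⟨R, hR⟩ := hK.isBounded.exists_norm_le
  have hbd : {t : ℝ | p + t • w ∈ K} ⊆ closedBall 0 (R + ‖p‖) := by
    intro t ht
    rw [mem_closedBall_zero_iff, Real.norm_eq_abs]
    have h1 := hR _ ht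
    have h2 : |t| = ‖t • w‖ := by rw [norm_smul, hw, mul_one, Real.norm_eq_abs]
    have h3 : ‖t • w‖ ≤ ‖p + t • w‖ + ‖p‖ := by
      have := norm_sub_le (p + t • w) p
      rwa [add_sub_cancel_left] at this
    linarith
  have hT : IsCompact {t : ℝ | p + t • w ∈ K} :=
    (isCompact_closedBall _ _).of_isClosed_subset hcl hbd
  have hne : {t : ℝ | p + t • w ∈ K}.Nonempty := ⟨t0, ht0⟩
  refine ⟨sSup {t : ℝ | p + t • w ∈ K}, sInf {t : ℝ | p + t • w ∈ K}, hT.sSup_mem hne,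
    hT.sInf_mem hne, ?_⟩
  have hsub : {t : ℝ | p + t • w ∈ K} ⊆
      Icc (sInf {t : ℝ | p + t • w ∈ K}) (sSup {t : ℝ | p + t • w ∈ K}) := fun t ht =>
    ⟨csInf_le hT.bddBelow ht, le_csSup hT.bddAbove ht⟩
  have h1 := hvol.trans (measure_mono hsub)
  rw [Real.volume_Icc] at h1
  have h2 : 0 ≤ sSup {t : ℝ | p + t • w ∈ K} - sInf {t : ℝ | p + t • w ∈ K} := by
    have h3 := hsub ht0
    linarith [h3.1, h3.2]
  exact (ENNReal.ofReal_le_ofReal_iff h2).1 h1

/-- every point of the symmetral is the half of a sum -/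
theorem half {K : Set Pl} (hK : IsCompact K) (hc : Convex ℝ K) {w : Pl} (hw : ‖w‖ = 1) {p : Pl}
    (hp : p ∈ steiner w K) : ∃ x ∈ K, ∃ y ∈ K, (2 : ℝ) • p = x + (y - (2 * inner ℝ y w) • w) := by
  obtain ⟨s, t, hs, ht, hst⟩ := mem_steiner hK hw hp
  have hww : inner ℝ w w = (1 : ℝ) := by rw [real_inner_self_eq_norm_sq, hw]; norm_num
  have hseg : ∀ r, t ≤ r → r ≤ s → p + r • w ∈ K := by
    have hconv : Convex ℝ {r : ℝ | p + r • w ∈ K} := by
      intro r hr r' hr' a b ha hb hab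
      have h1 := hc hr hr' ha hb hab
      have h2 : p + (a • r + b • r') • w = a • (p + r • w) + b • (p + r' • w) := by
        have h3 : p = (a + b) • p := by rw [hab, one_smul]
        rw [smul_add, smul_add, add_smul, smul_assoc, smul_assoc]
        nth_rewrite 1 [h3]
        rw [add_smul]
        abel
      show p + (a • r + b • r') • w ∈ K
      rw [h2]
      exact h1
    intro r h1 h2
    exact hconv.ordConnected.out ht hs ⟨h1, h2⟩
  obtain ⟨b, hb⟩ : ∃ b, b = inner ℝ p w := ⟨_, rfl⟩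
  rw [← hb] at hst
  have key : ∀ r r' : ℝ, r - r' = 2 * b →
      (2 : ℝ) • p = (p + r • w) + ((p + r' • w) - (2 * inner ℝ (p + r' • w) w) • w) := by
    intro r r' hr
    rw [inner_add_left, real_inner_smul_left, hww, ← hb]
    have h1 : (p + r • w) + ((p + r' • w) - (2 * (b + r' * 1)) • w) =
        (2 : ℝ) • p + (r + r' - 2 * (b + r' * 1)) • w := by
      rw [sub_smul, add_smul, two_smul]
      abel
    rw [h1]
    have h2 : r + r' - 2 * (b + r' * 1) = 0 := by linarith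
    rw [h2, zero_smul, add_zero]
  rcases le_total 0 b with h | h
  · rw [abs_of_nonneg h] at hst
    exact ⟨_, hs, _, hseg (s - 2 * b) (by linarith) (by linarith), key s (s - 2 * b) (by ring)⟩
  · rw [abs_of_nonpos h] at hst
    exact ⟨_, ht, _, hseg (t - 2 * b) (by linarith) (by linarith), key t (t - 2 * b) (by ring)⟩

theorem ball_inv {K : Set Pl} (hK : IsCompact K) (hc : Convex ℝ K) {w : Pl} (hw : ‖w‖ = 1)
    {M : ℝ} (hM : K ⊆ closedBall 0 M) : steiner w K ⊆ closedBall 0 M := by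
  intro p hp
  obtain ⟨x, hx, y, hy, h⟩ := half hK hc hw hp
  have hww : inner ℝ w w = (1 : ℝ) := by rw [real_inner_self_eq_norm_sq, hw]; norm_num
  have h1 := mem_closedBall_zero_iff.1 (hM hx)
  have h2 := mem_closedBall_zero_iff.1 (hM hy)
  rw [mem_closedBall_zero_iff]
  have h3 : ‖y - (2 * inner ℝ y w) • w‖ = ‖y‖ := by
    have h4 : ‖y - (2 * inner ℝ y w) • w‖ ^ 2 = ‖y‖ ^ 2 := by
      rw [← real_inner_self_eq_norm_sq, ← real_inner_self_eq_norm_sq, inner_sub_left,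
        inner_sub_right, inner_sub_right, real_inner_smul_left, real_inner_smul_right,
        real_inner_smul_left, real_inner_smul_right, hww, real_inner_comm y w]
      ring
    exact (pow_left_inj₀ (norm_nonneg _) (norm_nonneg _) two_ne_zero).1 h4
  have h5 : ‖(2 : ℝ) • p‖ ≤ ‖x‖ + ‖y‖ := by
    rw [h, ← h3]; exact norm_add_le _ _
  rw [norm_smul, Real.norm_eq_abs, abs_two] at h5
  linarith

/-- an upper bound of the support function -/
def Hb (K : Set Pl) (θ c : ℝ) : Prop := ∀ x ∈ K, inner ℝ x (e θ) ≤ c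

theorem step {K : Set Pl} (hK : IsCompact K) (hc : Convex ℝ K) {α θ c1 c2 : ℝ}
    (h1 : Hb K θ c1) (h2 : Hb K (2 * α - θ + Real.pi) c2) :
    Hb (steiner (e α) K) θ ((c1 + c2) / 2) := by
  intro p hp
  obtain ⟨x, hx, y, hy, h⟩ := half hK hc (norm_e α) hp
  have h3 := h1 x hx
  have h4 := h2 y hy
  have h5 : inner ℝ y (e (2 * α - θ + Real.pi)) =
      inner ℝ y (e θ) - 2 * inner ℝ y (e α) * inner ℝ (e α) (e θ) := by
    simp only [inner_e]
    simp only [e, PiLp.toLp_apply, Matrix.cons_val_zero, Matrix.cons_val_one]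
    rw [Real.cos_add_pi, Real.sin_add_pi, Real.cos_sub, Real.sin_sub, Real.cos_two_mul,
      Real.sin_two_mul]
    have h6 := Real.sin_sq_add_cos_sq α
    linear_combination (2 * (y 1) * Real.sin θ) * h6
  have h7 : 2 * inner ℝ p (e θ) = inner ℝ x (e θ) +
      (inner ℝ y (e θ) - 2 * inner ℝ y (e α) * inner ℝ (e α) (e θ)) := by
    rw [← real_inner_smul_left, h, inner_add_left, inner_sub_left, real_inner_smul_left]
  rw [← h5] at h7
  linarith

theorem Hb_ball {K : Set Pl} {M : ℝ} (hM : K ⊆ closedBall 0 M) (θ : ℝ) : Hb K θ M := by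
  intro x hx
  have h1 := mem_closedBall_zero_iff.1 (hM hx)
  have h2 := real_inner_le_norm x (e θ)
  rw [norm_e, mul_one] at h2
  linarith

theorem ball_Hb {K : Set Pl} {M : ℝ} (h : ∀ θ, Hb K θ M) : K ⊆ closedBall 0 M := by
  intro x hx
  rw [mem_closedBall_zero_iff]
  obtain ⟨θ, hθ⟩ := exists_angle x
  have h1 := h θ x hx
  have h2 : inner ℝ x (e θ) = ‖x‖ := by
    conv_lhs => rw [hθ]
    rw [real_inner_smul_left, real_inner_self_eq_norm_sq, norm_e]; ring
  rwa [h2] at h1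

theorem ex_dir {K : Set Pl} (hK : IsCompact K) (hc : Convex ℝ K) {a δ : ℝ} (ha : 0 ≤ a)
    (hδ : 0 < δ) (hvol : volume K = ENNReal.ofReal (Real.pi * a ^ 2)) :
    ∃ θ, Hb K θ (a + δ) := by
  by_contra hcon
  simp only [Hb, not_exists, not_forall, not_le] at hcon
  have hsub : closedBall (0 : Pl) (a + δ) ⊆ K := by
    intro z hz
    rw [mem_closedBall_zero_iff] at hz
    by_contra hzK
    obtain ⟨f, r, hf1, hf2⟩ := geometric_hahn_banach_closed_point hc hK.isClosed hzK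
    obtain ⟨v, hv⟩ : ∃ v : Pl, ∀ x, f x = inner ℝ v x :=
      ⟨(InnerProductSpace.toDual ℝ Pl).symm f, fun x => by
        rw [InnerProductSpace.toDual_symm_apply]⟩
    obtain ⟨θ, hθ⟩ := exists_angle v
    obtain ⟨x, hx, hx'⟩ := hcon θ
    have h1 := (hf1 x hx).trans hf2
    rw [hv, hv, hθ, real_inner_smul_left, real_inner_smul_left, real_inner_comm,
      real_inner_comm z] at h1
    have h2 := real_inner_le_norm z (e θ)
    rw [norm_e, mul_one] at h2
    have h3 : ‖v‖ * inner ℝ z (e θ) ≤ ‖v‖ * inner ℝ x (e θ) :=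
      mul_le_mul_of_nonneg_left (by linarith) (norm_nonneg v)
    linarith
  have h1 := measure_mono (μ := volume) hsub
  rw [EuclideanSpace.volume_closedBall_fin_two, hvol] at h1
  have h2 : ENNReal.ofReal (a + δ) ^ 2 * ENNReal.ofReal Real.pi ≤
      ENNReal.ofReal (Real.pi * a ^ 2) := h1
  rw [← ENNReal.ofReal_pow (by positivity), ← ENNReal.ofReal_mul (by positivity),
    ENNReal.ofReal_le_ofReal_iff (by positivity)] at h2
  have h3 := Real.pi_pos
  have h4 : a ^ 2 < (a + δ) ^ 2 := by nlinarith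
  nlinarith

theorem e_dist (s t : ℝ) : ‖e s - e t‖ ≤ |s - t| := by
  have h1 : ‖e s - e t‖ ^ 2 = 2 - 2 * Real.cos (s - t) := by
    rw [← real_inner_self_eq_norm_sq, inner_pl, Real.cos_sub]
    simp only [e, PiLp.sub_apply, Matrix.cons_val_zero, Matrix.cons_val_one]
    nlinarith [Real.sin_sq_add_cos_sq s, Real.sin_sq_add_cos_sq t]
  have h2 := Real.one_sub_sq_div_two_le_cos (x := s - t)
  have h3 : ‖e s - e t‖ ^ 2 ≤ |s - t| ^ 2 := by rw [h1, sq_abs]; linarith
  exact (pow_le_pow_iff_left₀ (norm_nonneg _) (abs_nonneg _) two_ne_zero).1 h3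

theorem e_per (s : ℝ) (m : ℤ) : e (s + 2 * Real.pi * m) = e s := by
  unfold e
  have h1 : s + 2 * Real.pi * m = s + m * (2 * Real.pi) := by ring
  rw [h1, Real.cos_add_int_mul_two_pi, Real.sin_add_int_mul_two_pi]

theorem cover (β : ℝ) (hβ : 0 < β) (ψ : ℝ) : ∃ i : ℕ, i ≤ ⌈2 * Real.pi / β⌉₊ ∧ ∃ m : ℤ,
    |i * β - ψ + 2 * Real.pi * m| ≤ β := by
  have hpi := Real.pi_pos
  obtain ⟨m, hm⟩ : ∃ m : ℤ, m = ⌊ψ / (2 * Real.pi)⌋ := ⟨_, rfl⟩
  have h1 : (m : ℝ) ≤ ψ / (2 * Real.pi) := by rw [hm]; exact Int.floor_le _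
  have h2 : ψ / (2 * Real.pi) < m + 1 := by rw [hm]; exact Int.lt_floor_add_one _
  rw [le_div_iff₀ (by positivity)] at h1
  rw [div_lt_iff₀ (by positivity)] at h2
  obtain ⟨ψ', hψ'⟩ : ∃ ψ', ψ' = ψ - 2 * Real.pi * m := ⟨_, rfl⟩
  have h3 : 0 ≤ ψ' := by rw [hψ']; linarith
  have h4 : ψ' < 2 * Real.pi := by rw [hψ']; linarith
  have h5 : 0 ≤ ψ' / β := by positivity
  refine ⟨⌊ψ' / β⌋₊, ?_, m, ?_⟩
  · refine (Nat.floor_le_ceil _).trans (Nat.ceil_mono ?_)
    exact div_le_div_of_nonneg_right h4.le hβ.le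
  · have h6 := Nat.floor_le h5
    have h7 := Nat.lt_floor_add_one (ψ' / β)
    rw [le_div_iff₀ hβ] at h6
    rw [div_lt_iff₀ hβ] at h7
    have h8 : (⌊ψ' / β⌋₊ : ℝ) * β - ψ + 2 * Real.pi * m = ⌊ψ' / β⌋₊ * β - ψ' := by
      rw [hψ']; ring
    rw [h8, abs_le]
    constructor <;> linarith

theorem dens (δ : ℝ) (hδ : 0 < δ) : ∃ n : ℕ, ∀ φ : ℝ, ∃ k : ℕ, k ≤ n ∧ ∃ m : ℤ,
    |(k : ℝ) - φ + 2 * Real.pi * m| ≤ δ := by
  have hpi := Real.pi_pos
  obtain ⟨N, hN⟩ := exists_nat_gt (2 * Real.pi / δ)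
  have hN0 : 0 < N := by
    have : (0 : ℝ) < N := lt_trans (by positivity) hN
    exact_mod_cast this
  obtain ⟨j, k1, hk1, -, hjk⟩ := Real.exists_int_int_abs_mul_sub_le (2 * Real.pi)⁻¹ hN0
  obtain ⟨K1, rfl⟩ := Int.eq_ofNat_of_zero_le hk1.le
  have hK1 : 0 < K1 := by exact_mod_cast hk1
  obtain ⟨β, hβ⟩ : ∃ β : ℝ, β = K1 - 2 * Real.pi * j := ⟨_, rfl⟩
  have hβδ : |β| ≤ δ := by
    have h1 : β = 2 * Real.pi * (((K1 : ℤ) : ℝ) * (2 * Real.pi)⁻¹ - j) := by
      rw [hβ]; push_cast; field_simp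
    rw [h1, abs_mul, abs_of_pos (by positivity)]
    have h2 : 2 * Real.pi * |((K1 : ℤ) : ℝ) * (2 * Real.pi)⁻¹ - j| ≤
        2 * Real.pi * (1 / ((N : ℝ) + 1)) := mul_le_mul_of_nonneg_left hjk (by positivity)
    refine h2.trans ?_
    rw [mul_one_div, div_le_iff₀ (by positivity)]
    rw [div_lt_iff₀ hδ] at hN
    nlinarith
  have hβ0 : β ≠ 0 := by
    intro h0
    have hK1' : (0 : ℝ) < K1 := by exact_mod_cast hK1
    have hj : (j : ℝ) ≠ 0 := by
      intro hj
      rw [hβ, hj] at h0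
      linarith
    have h2 : Real.pi = ((K1 : ℚ) / (2 * j) : ℚ) := by
      push_cast
      field_simp
      linarith
    exact irrational_pi ⟨_, h2.symm⟩
  have hβp : 0 < |β| := abs_pos.2 hβ0
  refine ⟨⌈2 * Real.pi / |β|⌉₊ * K1, fun φ => ?_⟩
  rcases lt_or_gt_of_ne hβ0 with hneg | hpos
  · obtain ⟨i, hi, m, hm⟩ := cover |β| hβp (-φ)
    refine ⟨i * K1, Nat.mul_le_mul_right _ hi, -(m + i * j), ?_⟩
    have h1 : (((i * K1 : ℕ) : ℝ)) - φ + 2 * Real.pi * ((-(m + i * j) : ℤ) : ℝ) =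
        -(i * |β| - -φ + 2 * Real.pi * m) := by
      rw [abs_of_neg hneg, hβ]; push_cast; ring
    rw [h1, abs_neg]
    exact hm.trans hβδ
  · obtain ⟨i, hi, m, hm⟩ := cover |β| hβp φ
    refine ⟨i * K1, Nat.mul_le_mul_right _ hi, m - i * j, ?_⟩
    have h1 : (((i * K1 : ℕ) : ℝ)) - φ + 2 * Real.pi * ((m - i * j : ℤ) : ℝ) =
        i * |β| - φ + 2 * Real.pi * m := by
      rw [abs_of_pos hpos, hβ]; push_cast; ring
    rw [h1]
    exact hm.trans hβδ

/-- the directions -/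
noncomputable def dir (i : ℕ) : Pl := if Even i then e (1 / 2) else e 0

theorem norm_dir (i : ℕ) : ‖dir i‖ = 1 := by
  unfold dir; split_ifs <;> exact norm_e _

theorem iter_facts (hA : StmtA) {K : Set Pl} (hK : IsCompact K) (hc : Convex ℝ K) (i : ℕ) :
    IsCompact (iter dir K i) ∧ Convex ℝ (iter dir K i) ∧ volume (iter dir K i) = volume K := by
  induction i with
  | zero => exact ⟨hK, hc, rfl⟩
  | succ i ih =>
    obtain ⟨h1, h2, h3⟩ := ih
    obtain ⟨h4, h5, h6⟩ := hA (dir i) _ (norm_dir i) h1 h2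
    exact ⟨h4, h5, h6.trans h3⟩

theorem iter_ball (hA : StmtA) {K : Set Pl} (hK : IsCompact K) (hc : Convex ℝ K) {M : ℝ} {i : ℕ}
    (hM : iter dir K i ⊆ closedBall 0 M) (j : ℕ) : iter dir K (i + j) ⊆ closedBall 0 M := by
  induction j with
  | zero => exact hM
  | succ j ih =>
    obtain ⟨h1, h2, _⟩ := iter_facts hA hK hc (i + j)
    exact ball_inv h1 h2 (norm_dir _) ih

/-- two steps -/
theorem two (hA : StmtA) {K : Set Pl} (hK : IsCompact K) (hc : Convex ℝ K) {M : ℝ} (i : ℕ)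
    (hi : Even i) (hM : iter dir K i ⊆ closedBall 0 M) {θ c : ℝ}
    (h : Hb (iter dir K i) θ c ∨ Hb (iter dir K i) (θ + 1) c) :
    Hb (iter dir K (i + 2)) θ (3 / 4 * M + 1 / 4 * c) := by
  obtain ⟨h1, h2, _⟩ := iter_facts hA hK hc i
  obtain ⟨h3, h4, _⟩ := iter_facts hA hK hc (i + 1)
  have hM1 : iter dir K (i + 1) ⊆ closedBall 0 M := iter_ball hA hK hc hM 1
  have e1 : iter dir K (i + 1) = steiner (e (1 / 2)) (iter dir K i) := by
    show steiner (dir i) _ = _
    rw [dir, if_pos hi]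
  have e2 : iter dir K (i + 2) = steiner (e 0) (iter dir K (i + 1)) := by
    show steiner (dir (i + 1)) _ = _
    rw [dir, if_neg (by rw [Nat.not_even_iff_odd]; exact hi.add_one)]
  rw [e2]
  rcases h with h | h
  · have h5 : Hb (iter dir K (i + 1)) θ ((c + M) / 2) := by
      rw [e1]; exact step h1 h2 h (Hb_ball hM _)
    have h6 := step h3 h4 h5 (Hb_ball hM1 (2 * 0 - θ + Real.pi))
    intro x hx
    have := h6 x hx
    linarith
  · have h5 : Hb (iter dir K (i + 1)) (2 * 0 - θ + Real.pi) ((M + c) / 2) := by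
      rw [e1]
      refine step h1 h2 (Hb_ball hM _) ?_
      have : 2 * (1 / 2) - (2 * 0 - θ + Real.pi) + Real.pi = θ + 1 := by ring
      rw [this]; exact h
    have h6 := step h3 h4 (Hb_ball hM1 θ) h5
    intro x hx
    have := h6 x hx
    linarith

/-- `2 n` steps -/
theorem many (hA : StmtA) {K : Set Pl} (hK : IsCompact K) (hc : Convex ℝ K) {M : ℝ} (i : ℕ)
    (hi : Even i) (hM : iter dir K i ⊆ closedBall 0 M) (n : ℕ) : ∀ (k : ℕ) (θ c : ℝ), k ≤ n →
    Hb (iter dir K i) (θ + k) c →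
    Hb (iter dir K (i + 2 * n)) θ ((1 - (1 / 4) ^ n) * M + (1 / 4) ^ n * c) := by
  induction n with
  | zero =>
    intro k θ c hk h
    have hk0 : k = 0 := by omega
    subst hk0
    simp only [Nat.cast_zero, add_zero] at h
    simpa using h
  | succ n ih =>
    intro k θ c hk h
    have hev : Even (i + 2 * n) := hi.add (even_two_mul n)
    have hMn := iter_ball hA hK hc hM (2 * n)
    have hgoal : ∀ c', (Hb (iter dir K (i + 2 * n)) θ c' ∨ Hb (iter dir K (i + 2 * n)) (θ + 1) c') →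
        Hb (iter dir K (i + 2 * (n + 1))) θ (3 / 4 * M + 1 / 4 * c') := fun c' h' =>
      two hA hK hc (i + 2 * n) hev hMn h'
    have hfin : 3 / 4 * M + 1 / 4 * ((1 - (1 / 4) ^ n) * M + (1 / 4) ^ n * c) =
        (1 - (1 / 4) ^ (n + 1)) * M + (1 / 4) ^ (n + 1) * c := by
      rw [pow_succ]; ring
    rw [← hfin]
    rcases Nat.lt_or_ge n k with hlt | hge
    · have hk1 : k = n + 1 := by omega
      subst hk1
      refine hgoal _ (Or.inr (ih n (θ + 1) c le_rfl ?_))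
      have : θ + 1 + (n : ℝ) = θ + ((n + 1 : ℕ) : ℝ) := by push_cast; ring
      rw [this]; exact h
    · exact hgoal _ (Or.inl (ih k θ c hge h))

end C

open C in
/-- SP-C -/
theorem stmtC (hA : StmtA) : StmtC := by
  refine ⟨dir, norm_dir, fun R hR ε hε => ?_⟩
  obtain ⟨δ, hδ⟩ : ∃ δ : ℝ, δ = ε / (2 * (1 + R)) := ⟨_, rfl⟩
  have hδ0 : 0 < δ := by rw [hδ]; positivity
  have hδR : δ * (1 + R) = ε / 2 := by rw [hδ]; field_simp
  obtain ⟨n, hn⟩ := dens δ hδ0
  obtain ⟨x, hx⟩ : ∃ x : ℝ, x = (1 / 4) ^ n := ⟨_, rfl⟩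
  have hx0 : 0 < x := by rw [hx]; positivity
  have hx1 : x ≤ 1 := by rw [hx]; exact pow_le_one₀ (by norm_num) (by norm_num)
  obtain ⟨q, hq⟩ : ∃ q : ℕ, (1 - x) ^ q * R ≤ ε / 2 := by
    have h1 : Tendsto (fun q : ℕ => (1 - x) ^ q * R) atTop (𝓝 (0 * R)) :=
      (tendsto_pow_atTop_nhds_zero_of_lt_one (by linarith) (by linarith)).mul_const R
    rw [zero_mul] at h1
    obtain ⟨q, hq⟩ := (h1.eventually_lt_const (show (0 : ℝ) < ε / 2 by positivity)).exists
    exact ⟨q, hq.le⟩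
  refine ⟨2 * n * q, fun i hi K a hK hc hKR ha hvol => ?_⟩
  have key : ∀ p : ℕ, iter dir K (2 * n * p) ⊆ closedBall 0 (a + ε / 2 + (1 - x) ^ p * R) := by
    intro p
    induction p with
    | zero =>
      simp only [mul_zero, pow_zero, one_mul]
      refine hKR.trans (closedBall_subset_closedBall ?_)
      linarith
    | succ p ih =>
      obtain ⟨h1, h2, h3⟩ := iter_facts hA hK hc (2 * n * p)
      obtain ⟨θ0, hθ0⟩ := ex_dir h1 h2 ha hδ0 (h3.trans hvol)
      have hev : Even (2 * n * p) := by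
        rw [mul_assoc]; exact even_two_mul _
      have hRp : iter dir K (2 * n * p) ⊆ closedBall 0 R := by
        have := iter_ball hA hK hc (i := 0) (M := R) hKR (2 * n * p)
        rwa [zero_add] at this
      refine ball_Hb fun θ => ?_
      obtain ⟨k, hk, m, hm⟩ := hn (θ0 - θ)
      have h4 : Hb (iter dir K (2 * n * p)) (θ + k) (a + ε / 2) := by
        intro y hy
        have h5 := hθ0 y hy
        have h6 : ‖e (θ + k) - e θ0‖ ≤ δ := by
          rw [← e_per (θ + k) m]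
          refine (e_dist _ _).trans ?_
          have : θ + k + 2 * Real.pi * m - θ0 = k - (θ0 - θ) + 2 * Real.pi * m := by ring
          rw [this]; exact hm
        have h7 := real_inner_le_norm y (e (θ + k) - e θ0)
        rw [inner_sub_right] at h7
        have h8 := mem_closedBall_zero_iff.1 (hRp hy)
        have h9 : ‖y‖ * ‖e (θ + k) - e θ0‖ ≤ R * δ :=
          mul_le_mul h8 h6 (norm_nonneg _) hR.le
        linarith
      have h5 := many hA hK hc (2 * n * p) hev ih n k θ _ hk h4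
      rw [show 2 * n * (p + 1) = 2 * n * p + 2 * n by ring]
      intro y hy
      have h6 := h5 y hy
      rw [← hx] at h6
      have h7 : (1 - x) * (a + ε / 2 + (1 - x) ^ p * R) + x * (a + ε / 2) =
          a + ε / 2 + (1 - x) ^ (p + 1) * R := by rw [pow_succ]; ring
      linarith
  have h1 : iter dir K (2 * n * q) ⊆ closedBall 0 (a + ε) :=
    (key q).trans (closedBall_subset_closedBall (by linarith))
  obtain ⟨j, rfl⟩ := Nat.exists_eq_add_of_le hi
  exact iter_ball hA hK hc h1 j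

end Pool.Agent.R921.SP
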